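import Mathlib

/-! Bounded factorisation in finitely generated nilpotent groups (for project H514-NIL). -/

open scoped Pointwise commutatorElement

namespace H399R5

variable {L Q G : Type*} [Group L] [Group Q] [Group G]

/-! ### lower central series commutators -/

theorem three_le (N : Subgroup L) [N.Normal] (A B C : Subgroup L)
    (h1 : ⁅⁅B, C⁆, A⁆ ≤ N) (h2 : ⁅⁅C, A⁆, B⁆ ≤ N) : ⁅⁅A, B⁆, C⁆ ≤ N := by
  have key : ∀ X : Subgroup L, X ≤ N ↔ X.map (QuotientGroup.mk' N) = ⊥ := by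
    intro X
    rw [Subgroup.map_eq_bot_iff, QuotientGroup.ker_mk']
  rw [key, Subgroup.map_commutator, Subgroup.map_commutator] at *
  exact Subgroup.commutator_commutator_eq_bot_of_rotate h1 h2

theorem lcs_comm (j : ℕ) : ∀ i, ⁅(⊤ : Subgroup L).lowerCentralSeries i,
    (⊤ : Subgroup L).lowerCentralSeries j⁆ ≤ (⊤ : Subgroup L).lowerCentralSeries (i + j + 1) := by
  induction j with
  | zero => intro i; exact le_refl _
  | succ j ih =>
    intro i
    rw [Subgroup.commutator_comm]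
    show ⁅⁅(⊤ : Subgroup L).lowerCentralSeries j, ⊤⁆, (⊤ : Subgroup L).lowerCentralSeries i⁆ ≤ _
    apply three_le
    · have h1 : ⁅⁅(⊤ : Subgroup L), (⊤ : Subgroup L).lowerCentralSeries i⁆,
          (⊤ : Subgroup L).lowerCentralSeries j⁆ ≤
          ⁅(⊤ : Subgroup L).lowerCentralSeries (i + 1), (⊤ : Subgroup L).lowerCentralSeries j⁆ := by
        apply Subgroup.commutator_mono _ (le_refl _)
        rw [Subgroup.commutator_comm]
        exact le_refl _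
      refine h1.trans ((ih (i + 1)).trans ?_)
      apply (⊤ : Subgroup L).lowerCentralSeries_antitone
      omega
    · have h1 := Subgroup.commutator_mono (ih i) (le_refl (⊤ : Subgroup L))
      refine h1.trans ?_
      show (⊤ : Subgroup L).lowerCentralSeries (i + j + 1 + 1) ≤ _
      apply (⊤ : Subgroup L).lowerCentralSeries_antitone
      omega

/-! ### bounded sets -/

def Bd [TopologicalSpace G] (φ : L →* G) (C : Set L) : Prop :=
  ∃ K : Set G, IsCompact K ∧ ∀ c ∈ C, φ c ∈ K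

section bd
variable [TopologicalSpace G] [IsTopologicalGroup G] (φ : L →* G)

theorem Bd.mul {C D : Set L} (hC : Bd φ C) (hD : Bd φ D) : Bd φ (C * D) := by
  obtain ⟨K, hK, h1⟩ := hC
  obtain ⟨K', hK', h2⟩ := hD
  refine ⟨K * K', hK.mul hK', ?_⟩
  rintro x ⟨c, hc, d, hd, rfl⟩
  show φ (c * d) ∈ K * K'
  rw [map_mul]
  exact Set.mul_mem_mul (h1 c hc) (h2 d hd)

theorem Bd.sing (x : L) : Bd φ {x} :=
  ⟨{φ x}, isCompact_singleton, fun c hc => by rw [Set.mem_singleton_iff.1 hc]; rfl⟩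

theorem Bd.comm_left {C : Set L} (hC : Bd φ C) (s : L) : Bd φ {x | ∃ c ∈ C, x = ⁅c, s⁆} := by
  obtain ⟨K, hK, h1⟩ := hC
  refine ⟨(fun y => y * φ s * y⁻¹ * (φ s)⁻¹) '' K, hK.image (by fun_prop), ?_⟩
  rintro x ⟨c, hc, rfl⟩
  exact ⟨φ c, h1 c hc, by simp [commutatorElement_def]⟩

theorem Bd.comm_right {C : Set L} (hC : Bd φ C) (s : L) : Bd φ {x | ∃ c ∈ C, x = ⁅s, c⁆} := by
  obtain ⟨K, hK, h1⟩ := hC
  refine ⟨(fun y => φ s * y * (φ s)⁻¹ * y⁻¹) '' K, hK.image (by fun_prop), ?_⟩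
  rintro x ⟨c, hc, rfl⟩
  exact ⟨φ c, h1 c hc, by simp [commutatorElement_def]⟩

end bd

/-! ### the calculus modulo a central subgroup -/

section modc

variable (π : L →* Q) (P M : Subgroup L)

/-- commutators with a left entry in `P` lie in `M`, and `M` is central modulo `ker π` -/
def Hyp : Prop := (∀ x ∈ P, ∀ y, ⁅x, y⁆ ∈ M) ∧ ∀ m ∈ M, ∀ y, Commute (π m) (π y)

variable {π P M}

theorem b_mul_left (h : Hyp π P M) {x x' : L} (y : L) (hx' : x' ∈ P) :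
    π ⁅x * x', y⁆ = π ⁅x, y⁆ * π ⁅x', y⁆ := by
  have e : ⁅x * x', y⁆ = x * ⁅x', y⁆ * x⁻¹ * ⁅x, y⁆ := by
    simp only [commutatorElement_def]; group
  have hc := h.2 _ (h.1 x' hx' y) x
  have hc2 := h.2 _ (h.1 x' hx' y) ⁅x, y⁆
  rw [e, map_mul, map_mul, map_mul, map_inv, ← hc.eq, mul_inv_cancel_right, hc2.eq]

theorem b_mul_right (h : Hyp π P M) {x : L} (y y' : L) (hx : x ∈ P) :
    π ⁅x, y * y'⁆ = π ⁅x, y⁆ * π ⁅x, y'⁆ := by
  have e : ⁅x, y * y'⁆ = ⁅x, y⁆ * (y * ⁅x, y'⁆ * y⁻¹) := by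
    simp only [commutatorElement_def]; group
  have hc := h.2 _ (h.1 x hx y') y
  rw [e, map_mul, map_mul, map_mul, map_inv, ← hc.eq, mul_inv_cancel_right]

theorem b_inv_right (h : Hyp π P M) {x : L} (y : L) (hx : x ∈ P) :
    π ⁅x, y⁻¹⁆ = (π ⁅x, y⁆)⁻¹ := by
  have := b_mul_right h y y⁻¹ hx
  rw [mul_inv_cancel, commutatorElement_one_right, map_one] at this
  exact (inv_eq_of_mul_eq_one_right this.symm).symm

theorem b_inv_left (h : Hyp π P M) {x : L} (y : L) (hx : x ∈ P) :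
    π ⁅x⁻¹, y⁆ = (π ⁅x, y⁆)⁻¹ := by
  have := b_mul_left h (x := x) (x' := x⁻¹) y (P.inv_mem hx)
  rw [mul_inv_cancel, commutatorElement_one_left, map_one] at this
  exact (inv_eq_of_mul_eq_one_right this.symm).symm

/-- `{x : x ≡ [η, y] for some y}` -/
def sub1 (h : Hyp π P M) (η : L) (hη : η ∈ P) : Subgroup L where
  carrier := {x | ∃ y, π x = π ⁅η, y⁆}
  one_mem' := ⟨1, by simp⟩
  mul_mem' := by
    rintro a b ⟨y, hy⟩ ⟨z, hz⟩
    exact ⟨y * z, by rw [map_mul, hy, hz, b_mul_right h y z hη]⟩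
  inv_mem' := by
    rintro a ⟨y, hy⟩
    exact ⟨y⁻¹, by rw [map_inv, hy, b_inv_right h y hη]⟩

theorem sub1_normal (h : Hyp π P M) (η : L) (hη : η ∈ P) : (sub1 h η hη).Normal := by
  constructor
  rintro n ⟨y, hy⟩ g
  refine ⟨y, ?_⟩
  have hc := h.2 _ (h.1 η hη y) g
  rw [map_mul, map_mul, map_inv, hy, ← hc.eq, mul_inv_cancel_right]

/-- `{x : x ≡ [p, s] for some p in P}` -/
def sub2 (h : Hyp π P M) (s : L) : Subgroup L where
  carrier := {x | ∃ p ∈ P, π x = π ⁅p, s⁆}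
  one_mem' := ⟨1, P.one_mem, by simp⟩
  mul_mem' := by
    rintro a b ⟨y, hyP, hy⟩ ⟨z, hzP, hz⟩
    exact ⟨y * z, P.mul_mem hyP hzP, by rw [map_mul, hy, hz, b_mul_left h s hzP]⟩
  inv_mem' := by
    rintro a ⟨y, hyP, hy⟩
    exact ⟨y⁻¹, P.inv_mem hyP, by rw [map_inv, hy, b_inv_left h s hyP]⟩

theorem sub2_normal (h : Hyp π P M) (s : L) : (sub2 h s).Normal := by
  constructor
  rintro n ⟨p, hp, hy⟩ g
  refine ⟨p, hp, ?_⟩
  have hc := h.2 _ (h.1 p hp s) g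
  rw [map_mul, map_mul, map_inv, hy, ← hc.eq, mul_inv_cancel_right]

variable [TopologicalSpace G] [IsTopologicalGroup G] (φ : L →* G)

variable (π M) in
/-- `D` is contained in (bounded part of `M`) times `Γs`, modulo `ker π`. -/
def Good (Γs : Subgroup L) (D : Set L) : Prop :=
  ∃ C : Set L, Bd φ C ∧ C ⊆ (M : Set L) ∧ ∀ x ∈ D, ∃ c ∈ C, ∃ γ ∈ Γs, π x = π c * π γ

theorem Good.mul (h : Hyp π P M) {Γs : Subgroup L} {D1 D2 : Set L}
    (h1 : Good π M φ Γs D1) (h2 : Good π M φ Γs D2) : Good π M φ Γs (D1 * D2) := by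
  obtain ⟨C1, hB1, hM1, h1⟩ := h1
  obtain ⟨C2, hB2, hM2, h2⟩ := h2
  refine ⟨C1 * C2, hB1.mul φ hB2, ?_, ?_⟩
  · rintro x ⟨a, ha, b, hb, rfl⟩
    exact M.mul_mem (hM1 ha) (hM2 hb)
  · rintro x ⟨a, ha, b, hb, rfl⟩
    obtain ⟨c, hc, γ, hγ, e⟩ := h1 a ha
    obtain ⟨c', hc', γ', hγ', e'⟩ := h2 b hb
    refine ⟨c * c', Set.mul_mem_mul hc hc', γ * γ', Γs.mul_mem hγ hγ', ?_⟩
    have hcc := h.2 _ (hM2 hc') γ
    show π (a * b) = _
    rw [map_mul, map_mul, map_mul, e, e']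
    calc π c * π γ * (π c' * π γ') = π c * (π γ * π c') * π γ' := by group
      _ = π c * (π c' * π γ) * π γ' := by rw [hcc.eq]
      _ = _ := by group

theorem Good.bot {Γs : Subgroup L} : Good π M φ Γs ((⊥ : Subgroup L) : Set L) := by
  refine ⟨{1}, Bd.sing φ 1, ?_, ?_⟩
  · intro x hx; rw [Set.mem_singleton_iff.1 hx]; exact M.one_mem
  · intro x hx
    have : x = 1 := by simpa using hx
    exact ⟨1, rfl, 1, Γs.one_mem, by rw [this]; simp⟩

theorem Good.sup (h : Hyp π P M) {Γs : Subgroup L} {ι : Type*} (F : Finset ι) (D : ι → Subgroup L)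
    (hD : ∀ i ∈ F, Good π M φ Γs (D i : Set L) ∧ (D i).Normal) :
    Good π M φ Γs (F.sup D : Subgroup L) ∧ (F.sup D).Normal := by
  classical
  induction F using Finset.induction_on with
  | empty =>
    refine ⟨?_, ?_⟩
    · simpa using Good.bot (π := π) (M := M) φ (Γs := Γs)
    · simp only [Finset.sup_empty]; infer_instance
  | insert a F ha ih =>
    obtain ⟨g1, n1⟩ := ih (fun i hi => hD i (Finset.mem_insert_of_mem hi))
    obtain ⟨g2, n2⟩ := hD a (Finset.mem_insert_self a F)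
    rw [Finset.sup_insert]
    refine ⟨?_, ?_⟩
    · rw [Subgroup.mul_normal]
      exact Good.mul φ h g2 g1
    · infer_instance

/-- The main step. -/
theorem step (h : Hyp π P M) (hM : M ≤ ⁅P, ⊤⁆) (hMP : M ≤ P)
    (S T Ti : Finset L) (hS : Subgroup.closure (S : Set L) = ⊤)
    (hTi : ∀ η ∈ Ti, η ∈ P)
    (B0 C : Set L) (hB0 : Bd φ B0) (hC : Bd φ C) (hCP : C ⊆ (P : Set L))
    (h0 : ∀ x : L, ∃ c ∈ B0, ∃ γ ∈ Subgroup.closure (T : Set L), x = c * γ)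
    (hi : ∀ x ∈ P, ∃ c ∈ C, ∃ γ ∈ Subgroup.closure (Ti : Set L), ∃ m ∈ M, x = c * γ * m) :
    Good π M φ (Subgroup.closure {x | ∃ η ∈ Ti, ∃ τ ∈ T, x = ⁅η, τ⁆}) (M : Set L) := by
  classical
  set Γs := Subgroup.closure {x | ∃ η ∈ Ti, ∃ τ ∈ T, x = ⁅η, τ⁆} with hΓs
  -- sub1 is good
  have g1 : ∀ η (hη : η ∈ Ti), Good π M φ Γs (sub1 h η (hTi η hη) : Set L) := by
    intro η hη
    have hηP := hTi η hη
    have key : ∀ ζ ∈ Subgroup.closure (T : Set L), ∃ γ ∈ Γs, π ⁅η, ζ⁆ = π γ := by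
      intro ζ hζ
      induction hζ using Subgroup.closure_induction with
      | mem x hx => exact ⟨⁅η, x⁆, Subgroup.subset_closure ⟨η, hη, x, hx, rfl⟩, rfl⟩
      | one => exact ⟨1, Γs.one_mem, by simp⟩
      | mul x y _ _ ihx ihy =>
        obtain ⟨a, ha, e⟩ := ihx
        obtain ⟨b, hb, e'⟩ := ihy
        exact ⟨a * b, Γs.mul_mem ha hb, by rw [b_mul_right h x y hηP, e, e', map_mul]⟩
      | inv x _ ihx =>
        obtain ⟨a, ha, e⟩ := ihx
        exact ⟨a⁻¹, Γs.inv_mem ha, by rw [b_inv_right h x hηP, e, map_inv]⟩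
    refine ⟨{x | ∃ c ∈ B0, x = ⁅η, c⁆}, hB0.comm_right φ η, ?_, ?_⟩
    · rintro x ⟨c, _, rfl⟩
      exact h.1 η hηP c
    · rintro x ⟨y, hy⟩
      obtain ⟨c, hc, ζ, hζ, rfl⟩ := h0 y
      obtain ⟨γ, hγ, e⟩ := key ζ hζ
      exact ⟨⁅η, c⁆, ⟨c, hc, rfl⟩, γ, hγ, by rw [hy, b_mul_right h c ζ hηP, e]⟩
  obtain ⟨gU, nU⟩ := Good.sup φ h (Γs := Γs) Ti.attach
    (fun η => sub1 h η.1 (hTi η.1 η.2)) (fun η _ => ⟨g1 η.1 η.2, sub1_normal h η.1 _⟩)
  set U : Subgroup L := Ti.attach.sup (fun η => sub1 h η.1 (hTi η.1 η.2)) with hU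
  have hUmem : ∀ γ ∈ Subgroup.closure (Ti : Set L), ∀ y, ⁅γ, y⁆ ∈ U := by
    intro γ hγ
    induction hγ using Subgroup.closure_induction with
    | mem x hx =>
      intro y
      have hle : sub1 h x (hTi x hx) ≤ U :=
        Finset.le_sup (f := fun η : Ti => sub1 h η.1 (hTi η.1 η.2)) (Finset.mem_attach Ti ⟨x, hx⟩)
      exact hle ⟨y, rfl⟩
    | one => intro y; rw [commutatorElement_one_left]; exact U.one_mem
    | mul x z _ _ ihx ihz =>
      intro y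
      have e : ⁅x * z, y⁆ = x * ⁅z, y⁆ * x⁻¹ * ⁅x, y⁆ := by
        simp only [commutatorElement_def]; group
      rw [e]
      exact U.mul_mem (nU.conj_mem _ (ihz y) x) (ihx y)
    | inv x _ ihx =>
      intro y
      have e : ⁅x⁻¹, y⁆ = x⁻¹ * ⁅x, y⁆⁻¹ * (x⁻¹)⁻¹ := by
        simp only [commutatorElement_def]; group
      rw [e]
      exact nU.conj_mem _ (U.inv_mem (ihx y)) x⁻¹
  have hΓP : Subgroup.closure (Ti : Set L) ≤ P := (Subgroup.closure_le P).2 hTi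
  -- sub2 is good
  have g2 : ∀ s, Good π M φ Γs (sub2 h s : Set L) := by
    intro s
    obtain ⟨CU, hBU, hMU, hUU⟩ := gU
    refine ⟨{x | ∃ c ∈ C, x = ⁅c, s⁆} * CU, (hC.comm_left φ s).mul φ hBU, ?_, ?_⟩
    · rintro x ⟨a, ⟨c, hc, rfl⟩, b, hb, rfl⟩
      exact M.mul_mem (h.1 c (hCP hc) s) (hMU hb)
    · rintro x ⟨p, hp, hx⟩
      obtain ⟨c, hc, γ, hγ, m, hm, rfl⟩ := hi p hp
      obtain ⟨c', hc', γ', hγ', e⟩ := hUU _ (hUmem γ hγ s)
      refine ⟨⁅c, s⁆ * c', Set.mul_mem_mul ⟨c, hc, rfl⟩ hc', γ', hγ', ?_⟩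
      have hm1 : π ⁅m, s⁆ = 1 := by
        rw [map_commutatorElement, commutatorElement_eq_one_iff_commute]
        exact h.2 m hm s
      rw [hx, b_mul_left h s (hMP hm), b_mul_left h s (hΓP hγ), hm1, mul_one, e, map_mul, mul_assoc]
  obtain ⟨gV, nV⟩ := Good.sup φ h (Γs := Γs) S (fun s => sub2 h s)
    (fun s _ => ⟨g2 s, sub2_normal h s⟩)
  set V : Subgroup L := S.sup (fun s => sub2 h s) with hV
  have hVmem : ∀ y ∈ Subgroup.closure (S : Set L), ∀ p ∈ P, ⁅p, y⁆ ∈ V := by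
    intro y hy
    induction hy using Subgroup.closure_induction with
    | mem x hx =>
      intro p hp
      have hle : sub2 h x ≤ V := Finset.le_sup (f := fun s => sub2 h s) hx
      exact hle ⟨p, hp, rfl⟩
    | one => intro p hp; rw [commutatorElement_one_right]; exact V.one_mem
    | mul x z _ _ ihx ihz =>
      intro p hp
      have e : ⁅p, x * z⁆ = ⁅p, x⁆ * (x * ⁅p, z⁆ * x⁻¹) := by
        simp only [commutatorElement_def]; group
      rw [e]
      exact V.mul_mem (ihx p hp) (nV.conj_mem _ (ihz p hp) x)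
    | inv x _ ihx =>
      intro p hp
      have e : ⁅p, x⁻¹⁆ = x⁻¹ * ⁅p, x⁆⁻¹ * (x⁻¹)⁻¹ := by
        simp only [commutatorElement_def]; group
      rw [e]
      exact nV.conj_mem _ (V.inv_mem (ihx p hp)) x⁻¹
  have hMV : M ≤ V := by
    refine hM.trans ?_
    rw [Subgroup.commutator_le]
    intro p hp y _
    exact hVmem y (by rw [hS]; trivial) p hp
  obtain ⟨C', hB', hM', hC'⟩ := gV
  exact ⟨C', hB', hM', fun x hx => hC' x (hMV hx)⟩

end modc

end H399R5
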