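import Pool.Agent.H399R5.NilAlg

open scoped Pointwise commutatorElement

namespace H399R5

variable {L G : Type*} [Group L] [Group G] [TopologicalSpace G] [IsTopologicalGroup G]

theorem levels (φ : L →* G) (S T : Finset L) (hS : Subgroup.closure (S : Set L) = ⊤)
    (B0 : Set L) (hB0 : Bd φ B0)
    (h0 : ∀ x : L, ∃ c ∈ B0, ∃ γ ∈ Subgroup.closure (T : Set L), x = c * γ) (i : ℕ) :
    ∃ (C : Set L) (Ti : Finset L), Bd φ C ∧ C ⊆ ((⊤ : Subgroup L).lowerCentralSeries i : Set L) ∧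
      (∀ η ∈ Ti, η ∈ (⊤ : Subgroup L).lowerCentralSeries i) ∧
      Subgroup.closure (Ti : Set L) ≤ Subgroup.closure (T : Set L) ∧
      ∀ x ∈ (⊤ : Subgroup L).lowerCentralSeries i, ∃ c ∈ C, ∃ γ ∈ Subgroup.closure (Ti : Set L),
        ∃ m ∈ (⊤ : Subgroup L).lowerCentralSeries (i + 1), x = c * γ * m := by
  classical
  induction i with
  | zero =>
    refine ⟨B0, T, hB0, fun x _ => by simp, fun x _ => by simp, le_refl _, ?_⟩
    intro x _
    obtain ⟨c, hc, γ, hγ, e⟩ := h0 x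
    exact ⟨c, hc, γ, hγ, 1, Subgroup.one_mem _, by rw [mul_one]; exact e⟩
  | succ i ih =>
    obtain ⟨C, Ti, hC, hCP, hTi, hle, hx⟩ := ih
    set P := (⊤ : Subgroup L).lowerCentralSeries i with hP
    set M := (⊤ : Subgroup L).lowerCentralSeries (i + 1) with hM
    set N := (⊤ : Subgroup L).lowerCentralSeries (i + 1 + 1) with hN
    have hNn : N.Normal := by rw [hN]; infer_instance
    have hyp : Hyp (QuotientGroup.mk' N) P M := by
      refine ⟨fun x hx y => Subgroup.commutator_mem_commutator hx (Subgroup.mem_top y), ?_⟩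
      intro m hm y
      rw [← commutatorElement_eq_one_iff_commute, ← map_commutatorElement]
      have : ⁅m, y⁆ ∈ N := Subgroup.commutator_mem_commutator hm (Subgroup.mem_top y)
      rwa [← QuotientGroup.ker_mk' N, MonoidHom.mem_ker] at this
    have hMP : M ≤ P := (⊤ : Subgroup L).lowerCentralSeries_antitone (Nat.le_succ i)
    obtain ⟨C', hB', hM', hg⟩ := step φ hyp (le_refl _) hMP S T Ti hS hTi B0 C hB0 hC hCP h0 hx
    have hset : {x | ∃ η ∈ Ti, ∃ τ ∈ T, x = ⁅η, τ⁆} =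
        (((Ti ×ˢ T).image (fun p => ⁅p.1, p.2⁆) : Finset L) : Set L) := by
      ext x
      simp only [Set.mem_setOf_eq, Finset.coe_image, Finset.coe_product, Set.mem_image,
        Set.mem_prod, Finset.mem_coe, Prod.exists]
      constructor
      · rintro ⟨a, ha, b, hb, rfl⟩; exact ⟨a, b, ⟨ha, hb⟩, rfl⟩
      · rintro ⟨a, b, ⟨ha, hb⟩, rfl⟩; exact ⟨a, ha, b, hb, rfl⟩
    rw [hset] at hg
    refine ⟨C', (Ti ×ˢ T).image (fun p => ⁅p.1, p.2⁆), hB', hM', ?_, ?_, ?_⟩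
    · intro η hη
      rw [Finset.mem_image] at hη
      obtain ⟨⟨a, b⟩, hab, rfl⟩ := hη
      rw [Finset.mem_product] at hab
      exact hyp.1 a (hTi a hab.1) b
    · rw [Subgroup.closure_le]
      intro η hη
      rw [Finset.mem_coe, Finset.mem_image] at hη
      obtain ⟨⟨a, b⟩, hab, rfl⟩ := hη
      rw [Finset.mem_product] at hab
      have ha : a ∈ Subgroup.closure (T : Set L) := hle (Subgroup.subset_closure hab.1)
      have hb : b ∈ Subgroup.closure (T : Set L) := Subgroup.subset_closure hab.2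
      show a * b * a⁻¹ * b⁻¹ ∈ Subgroup.closure (T : Set L)
      exact Subgroup.mul_mem _ (Subgroup.mul_mem _ (Subgroup.mul_mem _ ha hb)
        (Subgroup.inv_mem _ ha)) (Subgroup.inv_mem _ hb)
    · intro x hxM
      obtain ⟨c, hc, γ, hγ, e⟩ := hg x hxM
      refine ⟨c, hc, γ, hγ, (c * γ)⁻¹ * x, ?_, by group⟩
      rw [← map_mul] at e
      exact (QuotientGroup.eq (s := N)).1 e.symm

theorem final_alg (φ : L →* G) (S T : Finset L) (hS : Subgroup.closure (S : Set L) = ⊤)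
    (B0 : Set L) (hB0 : Bd φ B0)
    (h0 : ∀ x : L, ∃ c ∈ B0, ∃ γ ∈ Subgroup.closure (T : Set L), x = c * γ) (k : ℕ)
    (hk : (⊤ : Subgroup L).lowerCentralSeries k = ⊥) (n : ℕ) : ∀ i, k ≤ i + n →
    ∃ C : Set L, Bd φ C ∧ C ⊆ ((⊤ : Subgroup L).lowerCentralSeries i : Set L) ∧
      ∀ x ∈ (⊤ : Subgroup L).lowerCentralSeries i, ∃ c ∈ C,
        c⁻¹ * x ∈ Subgroup.closure (T : Set L) := by
  induction n with
  | zero =>
    intro i hi
    have hbot : (⊤ : Subgroup L).lowerCentralSeries i = ⊥ := by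
      rw [eq_bot_iff, ← hk]
      exact (⊤ : Subgroup L).lowerCentralSeries_antitone (by omega)
    refine ⟨{1}, Bd.sing φ 1, ?_, ?_⟩
    · intro x hx; rw [Set.mem_singleton_iff.1 hx]; exact Subgroup.one_mem _
    · intro x hx
      rw [hbot, Subgroup.mem_bot] at hx
      exact ⟨1, rfl, by rw [hx]; simpa using Subgroup.one_mem _⟩
  | succ n ih =>
    intro i hi
    obtain ⟨C', hB', hC', hx'⟩ := ih (i + 1) (by omega)
    obtain ⟨C, Ti, hB, hC, hTi, hle, hx⟩ := levels φ S T hS B0 hB0 h0 i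
    refine ⟨C * C', hB.mul φ hB', ?_, ?_⟩
    · rintro x ⟨a, ha, b, hb, rfl⟩
      refine Subgroup.mul_mem _ (hC ha) ?_
      exact (⊤ : Subgroup L).lowerCentralSeries_antitone (Nat.le_succ i) (hC' hb)
    · intro x hxi
      obtain ⟨c, hc, γ, hγ, m, hm, rfl⟩ := hx x hxi
      have hn : ((⊤ : Subgroup L).lowerCentralSeries (i + 1)).Normal := inferInstance
      obtain ⟨c', hc', hγ'⟩ := hx' _ (hn.conj_mem m hm γ)
      refine ⟨c * c', Set.mul_mem_mul hc hc', ?_⟩
      have e : (c * c')⁻¹ * (c * γ * m) = (c'⁻¹ * (γ * m * γ⁻¹)) * γ := by group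
      rw [e]
      exact Subgroup.mul_mem _ hγ' (hle hγ)

/-- compact generation part -/
theorem top_part [T2Space G] [LocallyCompactSpace G] (Γ : Subgroup G) (hΓ : DiscreteTopology Γ)
    (hc : CompactSpace (G ⧸ Γ)) (g : G) :
    ∃ (K : Set G) (T : Finset G), IsCompact K ∧ (∀ t ∈ T, t ∈ Γ) ∧
      ∀ x ∈ Subgroup.closure ((T : Set G) ∪ {g}), ∃ c ∈ K, ∃ γ ∈ Subgroup.closure (T : Set G),
        x = c * γ := by
  classical
  obtain ⟨V, hVc, hV⟩ := exists_compact_mem_nhds (1 : G)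
  set G1 := Subgroup.closure (V ∪ {g}) with hG1
  have hVG : V ⊆ (G1 : Set G) := fun x hx => Subgroup.subset_closure (Or.inl hx)
  have hgG : g ∈ G1 := Subgroup.subset_closure (Or.inr rfl)
  have hG1o : IsOpen (G1 : Set G) := G1.isOpen_of_mem_nhds (Filter.mem_of_superset hV hVG)
  -- the orbit is compact
  set O : Set (G ⧸ Γ) := (QuotientGroup.mk : G → G ⧸ Γ) '' (G1 : Set G) with hO
  have hOcl : IsClosed O := by
    rw [← isOpen_compl_iff]
    rw [← (QuotientGroup.isQuotientMap_mk (N := Γ)).isOpen_preimage]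
    rw [isOpen_iff_mem_nhds]
    intro y hy
    have hop : IsOpen ((fun z => z * y⁻¹) ⁻¹' (G1 : Set G)) :=
      hG1o.preimage (continuous_mul_right _)
    refine Filter.mem_of_superset (hop.mem_nhds (by
      show y * y⁻¹ ∈ G1
      rw [mul_inv_cancel]; exact G1.one_mem)) ?_
    intro z hz hz2
    apply hy
    obtain ⟨a, ha, e⟩ := hz2
    refine ⟨(z * y⁻¹)⁻¹ * a, G1.mul_mem (G1.inv_mem hz) ha, ?_⟩
    rw [QuotientGroup.eq] at e ⊢
    have : ((z * y⁻¹)⁻¹ * a)⁻¹ * y = a⁻¹ * z := by group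
    rw [this]; exact e
  have hOc : IsCompact O := hOcl.isCompact
  obtain ⟨F, hF⟩ := hOc.elim_finite_subcover
    (fun y : G1 => (QuotientGroup.mk : G → G ⧸ Γ) '' ((fun v => (y : G) * v) '' interior V))
    (fun y => by
      apply QuotientGroup.isOpenMap_coe
      exact (Homeomorph.mulLeft (y : G)).isOpenMap _ isOpen_interior)
    (by
      rintro _ ⟨x, hx, rfl⟩
      refine Set.mem_iUnion.2 ⟨⟨x, hx⟩, x, ⟨1, mem_interior_iff_mem_nhds.2 hV, mul_one x⟩, rfl⟩)
  set K1 : Set G := {1} ∪ ⋃ y ∈ F, (fun v => (y : G) * v) '' V with hK1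
  have hK1c : IsCompact K1 := by
    apply isCompact_singleton.union
    exact F.isCompact_biUnion (fun y _ => hVc.image (continuous_mul_left _))
  have h1K : (1 : G) ∈ K1 := Or.inl rfl
  have hK1G : K1 ⊆ (G1 : Set G) := by
    rintro x (hx | hx)
    · rw [Set.mem_singleton_iff.1 hx]; exact G1.one_mem
    · simp only [Set.mem_iUnion] at hx
      obtain ⟨y, hy, v, hv, rfl⟩ := hx
      exact G1.mul_mem y.2 (hVG hv)
  have hcov : ∀ x ∈ G1, ∃ κ ∈ K1, κ⁻¹ * x ∈ Γ := by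
    intro x hx
    have := hF ⟨x, hx, rfl⟩
    simp only [Set.mem_iUnion] at this
    obtain ⟨y, hy, z, ⟨v, hv, rfl⟩, e⟩ := this
    refine ⟨(y : G) * v, Or.inr ?_, (QuotientGroup.eq).1 e⟩
    simp only [Set.mem_iUnion]
    exact ⟨y, hy, v, interior_subset hv, rfl⟩
  -- the finite set
  set M' : Set G := (V ∪ {g}) ∪ ((V ∪ {g})⁻¹ ∪ {1}) with hM'
  have hM'c : IsCompact M' :=
    (hVc.union isCompact_singleton).union ((hVc.union isCompact_singleton).inv.union
      isCompact_singleton)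
  have hCc : IsCompact (K1⁻¹ * M' * K1) := (hK1c.inv.mul hM'c).mul hK1c
  have hWc : IsCompact ((Γ : Set G) ∩ (K1⁻¹ * M' * K1)) :=
    hCc.inter_left Γ.isClosed_of_discrete
  have hWf : ((Γ : Set G) ∩ (K1⁻¹ * M' * K1)).Finite := by
    apply hWc.finite
    have hd : IsDiscrete (Γ : Set G) := ⟨hΓ⟩
    exact hd.mono Set.inter_subset_left
  set T := hWf.toFinset with hT
  have hTmem : ∀ t, t ∈ T ↔ t ∈ Γ ∧ t ∈ K1⁻¹ * M' * K1 := by
    intro t; rw [hT, Set.Finite.mem_toFinset]; rfl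
  have hM'G : M' ⊆ (G1 : Set G) := by
    rintro x ((hx | hx) | (hx | hx))
    · exact hVG hx
    · rw [Set.mem_singleton_iff.1 hx]; exact hgG
    · have : x⁻¹ ∈ G1 := by
        rcases hx with h | h
        · exact hVG h
        · rw [Set.mem_singleton_iff.1 h]; exact hgG
      simpa using G1.inv_mem this
    · rw [Set.mem_singleton_iff.1 hx]; exact G1.one_mem
  have hTG : ∀ t ∈ T, t ∈ G1 := by
    intro t ht
    obtain ⟨-, a, ⟨b, hb, m, hm, rfl⟩, κ, hκ, rfl⟩ := (hTmem t).1 ht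
    have hb' : b ∈ G1 := by
      have : b⁻¹ ∈ G1 := hK1G hb
      simpa using G1.inv_mem this
    exact G1.mul_mem (G1.mul_mem hb' (hM'G hm)) (hK1G hκ)
  have hstep : ∀ m ∈ M', ∀ y, (∃ κ ∈ K1, κ⁻¹ * y ∈ Subgroup.closure (T : Set G)) →
      ∃ κ ∈ K1, κ⁻¹ * (m * y) ∈ Subgroup.closure (T : Set G) := by
    rintro m hm y ⟨κ, hκ, hy⟩
    obtain ⟨κ', hκ', hγ⟩ := hcov (m * κ) (G1.mul_mem (hM'G hm) (hK1G hκ))
    refine ⟨κ', hκ', ?_⟩
    have e : κ'⁻¹ * (m * y) = (κ'⁻¹ * (m * κ)) * (κ⁻¹ * y) := by group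
    rw [e]
    refine Subgroup.mul_mem _ (Subgroup.subset_closure ?_) hy
    rw [Finset.mem_coe, hTmem]
    refine ⟨hγ, ?_⟩
    rw [← mul_assoc]
    exact Set.mul_mem_mul (Set.mul_mem_mul (Set.inv_mem_inv.2 hκ') hm) hκ
  have hall : ∀ x ∈ G1, ∃ κ ∈ K1, κ⁻¹ * x ∈ Subgroup.closure (T : Set G) := by
    intro x hx
    induction hx using Subgroup.closure_induction_left with
    | one => exact ⟨1, h1K, by simpa using Subgroup.one_mem _⟩
    | mul_left m hm y _ ih => exact hstep m (Or.inl hm) y ih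
    | inv_mul_cancel m hm y _ ih =>
      exact hstep m⁻¹ (Or.inr (Or.inl (Set.inv_mem_inv.2 hm))) y ih
  refine ⟨K1, T, hK1c, fun t ht => ((hTmem t).1 ht).1, ?_⟩
  intro x hx
  have hxG : x ∈ G1 := by
    have hle : Subgroup.closure ((T : Set G) ∪ {g}) ≤ G1 := by
      rw [Subgroup.closure_le]
      rintro y (hy | hy)
      · exact hTG y hy
      · rw [Set.mem_singleton_iff.1 hy]; exact hgG
    exact hle hx
  obtain ⟨κ, hκ, h⟩ := hall x hxG
  exact ⟨κ, hκ, κ⁻¹ * x, h, by group⟩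

end H399R5
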