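import Pool.Agent.H399R5.NilLev

/-! TaskB of project H514-NIL: every discrete cocompact subgroup of a locally compact group of class at
most `k` gives a filtration with bounded fundamental domains on a suitable subgroup containing `g`. -/

open scoped Pointwise commutatorElement

namespace H399R5

/-- weak form of a filtered nilmanifold around `g`: some subgroup `L` containing `g` has a filtration of
degree `k` whose terms are contained in (bounded set) * `Γ`. -/
def WFilt (G : Type*) [Group G] [TopologicalSpace G] (Γ : Subgroup G) (k : ℕ) (g : G) : Prop :=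
  ∃ (L : Subgroup G) (H : ℕ → Subgroup L) (K : Set G) (C : ℕ → Set L), g ∈ L ∧ IsCompact K ∧
    H 0 = ⊤ ∧ H 1 = ⊤ ∧ H (k + 1) = ⊥ ∧ Antitone H ∧ (∀ i j, ⁅H i, H j⁆ ≤ H (i + j)) ∧
    (∀ i, C i ⊆ (H i : Set L)) ∧ (∀ i, ∀ c ∈ C i, (c : G) ∈ K) ∧
    ∀ i, ∀ x ∈ H i, ∃ c ∈ C i, ((c⁻¹ * x : L) : G) ∈ Γ

theorem taskB (G : Type*) [Group G] [TopologicalSpace G] [IsTopologicalGroup G] [T2Space G]
    [LocallyCompactSpace G] (Γ : Subgroup G) (k : ℕ)
    (hk : (⊤ : Subgroup G).lowerCentralSeries k = ⊥)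
    (hΓ : DiscreteTopology Γ) (hc : CompactSpace (G ⧸ Γ)) (g : G) : WFilt G Γ k g := by
  classical
  obtain ⟨K0, T, hK0, hTΓ, hcov⟩ := top_part Γ hΓ hc g
  set L := Subgroup.closure ((T : Set G) ∪ {g}) with hL
  have hgL : g ∈ L := Subgroup.subset_closure (Or.inr rfl)
  have hTL : (T : Set G) ⊆ (L : Set G) := fun t ht => Subgroup.subset_closure (Or.inl ht)
  have hTle : Subgroup.closure (T : Set G) ≤ L := (Subgroup.closure_le L).2 hTL
  have hTleΓ : Subgroup.closure (T : Set G) ≤ Γ := (Subgroup.closure_le Γ).2 hTΓ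
  have hinj : Function.Injective (Subtype.val : L → G) := Subtype.val_injective
  have hSf : ((Subtype.val : L → G) ⁻¹' ((T : Set G) ∪ {g})).Finite :=
    (T.finite_toSet.union (Set.finite_singleton g)).preimage hinj.injOn
  have hTf : ((Subtype.val : L → G) ⁻¹' (T : Set G)).Finite :=
    T.finite_toSet.preimage hinj.injOn
  have hS : Subgroup.closure ((hSf.toFinset : Finset L) : Set L) = ⊤ := by
    rw [Set.Finite.coe_toFinset]
    exact Subgroup.closure_closure_coe_preimage
  have hmap : (Subgroup.closure ((hTf.toFinset : Finset L) : Set L)).map L.subtype =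
      Subgroup.closure (T : Set G) := by
    rw [Set.Finite.coe_toFinset, MonoidHom.map_closure]
    congr 1
    ext x
    constructor
    · rintro ⟨y, hy, rfl⟩; exact hy
    · intro hx; exact ⟨⟨x, hTL hx⟩, hx, rfl⟩
  have hB0 : Bd L.subtype {c : L | (c : G) ∈ K0} := ⟨K0, hK0, fun c hc => hc⟩
  have h0 : ∀ x : L, ∃ c ∈ {c : L | (c : G) ∈ K0},
      ∃ γ ∈ Subgroup.closure ((hTf.toFinset : Finset L) : Set L), x = c * γ := by
    intro x
    obtain ⟨c, hc, γ, hγ, e⟩ := hcov (x : G) x.2
    have hγ2 := hγ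
    rw [← hmap, Subgroup.mem_map] at hγ2
    obtain ⟨γ', hγ', e'⟩ := hγ2
    have hcx : ((x * γ'⁻¹ : L) : G) = c := by
      rw [Subgroup.coe_mul, Subgroup.coe_inv]
      have e'' : (γ' : G) = γ := e'
      rw [e'', e]; group
    refine ⟨x * γ'⁻¹, ?_, γ', hγ', by group⟩
    show ((x * γ'⁻¹ : L) : G) ∈ K0
    rw [hcx]; exact hc
  have hkL : (⊤ : Subgroup L).lowerCentralSeries k = ⊥ := by
    rw [← Subgroup.map_subtype_inj, Subgroup.map_bot, Subgroup.top_subtype_lowerCentralSeries,
      eq_bot_iff, ← hk]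
    exact Subgroup.lowerCentralSeries_mono k le_top
  have hfin := fun i => final_alg L.subtype hSf.toFinset hTf.toFinset hS _ hB0 h0 k hkL k i
    (Nat.le_add_left k i)
  choose C hCB hCsub hC using hfin
  choose Kf hKf hKf2 using hCB
  let idx : ℕ → ℕ := fun i => min (i - 1) k
  have hidx : ∀ i, (⊤ : Subgroup L).lowerCentralSeries (idx i) =
      (⊤ : Subgroup L).lowerCentralSeries (i - 1) := by
    intro i
    rcases le_total (i - 1) k with h | h
    · show (⊤ : Subgroup L).lowerCentralSeries (min (i - 1) k) = _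
      rw [min_eq_left h]
    · show (⊤ : Subgroup L).lowerCentralSeries (min (i - 1) k) = _
      rw [min_eq_right h, hkL, eq_comm, eq_bot_iff, ← hkL]
      exact (⊤ : Subgroup L).lowerCentralSeries_antitone h
  refine ⟨L, fun i => (⊤ : Subgroup L).lowerCentralSeries (i - 1), ⋃ j ∈ Finset.range (k + 1), Kf j,
    fun i => C (idx i), hgL, (Finset.range (k + 1)).isCompact_biUnion (fun j _ => hKf j), rfl, rfl,
    hkL, ?_, ?_, ?_, ?_, ?_⟩
  · intro a b hab
    exact (⊤ : Subgroup L).lowerCentralSeries_antitone (Nat.sub_le_sub_right hab 1)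
  · intro i j
    have hn : ∀ m, ((⊤ : Subgroup L).lowerCentralSeries m).Normal := fun m => inferInstance
    rcases Nat.eq_zero_or_pos i with hi | hi
    · subst hi
      have : ((⊤ : Subgroup L).lowerCentralSeries (j - 1)).Normal := hn _
      show ⁅(⊤ : Subgroup L).lowerCentralSeries (0 - 1),
        (⊤ : Subgroup L).lowerCentralSeries (j - 1)⁆ ≤
        (⊤ : Subgroup L).lowerCentralSeries (0 + j - 1)
      rw [Nat.zero_add]
      exact Subgroup.commutator_le_right _ _
    · rcases Nat.eq_zero_or_pos j with hj | hj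
      · subst hj
        have : ((⊤ : Subgroup L).lowerCentralSeries (i - 1)).Normal := hn _
        show ⁅(⊤ : Subgroup L).lowerCentralSeries (i - 1),
          (⊤ : Subgroup L).lowerCentralSeries (0 - 1)⁆ ≤
          (⊤ : Subgroup L).lowerCentralSeries (i + 0 - 1)
        exact Subgroup.commutator_le_left _ _
      · have h := lcs_comm (L := L) (j - 1) (i - 1)
        have e : i - 1 + (j - 1) + 1 = i + j - 1 := by omega
        rw [e] at h
        exact h
  · intro i
    show C (idx i) ⊆ (((⊤ : Subgroup L).lowerCentralSeries (i - 1) : Subgroup L) : Set L)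
    rw [← hidx i]
    exact hCsub (idx i)
  · intro i c hc
    simp only [Set.mem_iUnion]
    refine ⟨idx i, Finset.mem_range.2 ?_, hKf2 (idx i) c hc⟩
    exact Nat.lt_succ_of_le (min_le_right _ _)
  · intro i x hx
    have hx' : x ∈ (⊤ : Subgroup L).lowerCentralSeries (idx i) := by rw [hidx i]; exact hx
    obtain ⟨c, hc, h⟩ := hC (idx i) x hx'
    refine ⟨c, hc, hTleΓ ?_⟩
    rw [← hmap]
    exact ⟨c⁻¹ * x, h, rfl⟩

end H399R5
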