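import Pool.Agent.H399R5.TaskB
import Pool.Agent.H514R4.Lit

theorem H399R5.taskB_lit : H514N.TaskB := by
  intro G _ _ _ _ _ Γ k _ hk hΓ hc g
  obtain ⟨L, H, K, C, h1, h2, h3, h4, h5, h6, h7, h8, h9, h10⟩ := H399R5.taskB G Γ k hk hΓ hc g
  exact ⟨L, h1, H, h3, h4, h5, h6, h7, K, h2, C, h8, h9, h10⟩
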